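import Pool.Agent.Helper61.QE.St2

/-!
# Project QD, part E, module MB1: from squared cross ratios to a Moebius map
-/

set_option autoImplicit false

open Set

namespace Pool.Agent.Helper3.QE

open Pool.Agent.Helper61.QE

private theorem crU (y a b c : ℂ) (ha : a - y ≠ 0) (hb : b - y ≠ 0) (hc : c - y ≠ 0)
    (hac : a ≠ c) :
    (y - a) * (b - c) / ((y - b) * (a - c)) =
      ((c - y)⁻¹ - (b - y)⁻¹) / ((c - y)⁻¹ - (a - y)⁻¹) := by
  have h1 : y - b ≠ 0 := by
    intro h
    apply hb
    linear_combination -h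
  have h2 : a - c ≠ 0 := sub_ne_zero.mpr hac
  have h3 : (c - y)⁻¹ - (a - y)⁻¹ = (a - c) / ((c - y) * (a - y)) := by
    field_simp
    ring
  have h4 : (c - y)⁻¹ - (b - y)⁻¹ = (b - c) / ((c - y) * (b - y)) := by
    field_simp
    ring
  rw [h3, h4]
  field_simp
  ring

private theorem inv_ne {y a b : ℂ} (hab : a ≠ b) : (a - y)⁻¹ - (b - y)⁻¹ ≠ 0 := by
  intro h
  have h1 : (a - y)⁻¹ = (b - y)⁻¹ := sub_eq_zero.mp h
  exact hab (by linear_combination inv_injective h1)

private theorem XY {X Y : ℂ} (h1 : X ^ 2 = Y ^ 2) (h2 : (1 - X) ^ 2 = (1 - Y) ^ 2) : X = Y := by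
  linear_combination (1 / 2) * h1 - (1 / 2) * h2

private theorem oneSub {p q r : ℂ} (h : r - p ≠ 0) (h' : p - r ≠ 0) :
    (p - q) / (p - r) = 1 - (r - q) / (r - p) := by
  field_simp
  ring

private theorem solve {u2 u3 u4 v2 v3 v4 : ℂ} (hu : u4 - u2 ≠ 0) (hv : v4 - v2 ≠ 0)
    (hv' : v2 - v3 ≠ 0) (h : (u4 - u3) / (u4 - u2) = (v4 - v3) / (v4 - v2)) :
    u4 = (u2 - (u2 - u3) / (v2 - v3) * v2) + (u2 - u3) / (v2 - v3) * v4 := by
  rw [div_eq_div_iff hu hv] at h
  have h1 : (u4 - u2) * (v2 - v3) = (u2 - u3) * (v4 - v2) := by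
    linear_combination -h
  have h2 : u4 - u2 = (u2 - u3) / (v2 - v3) * (v4 - v2) := by
    rw [div_mul_eq_mul_div, eq_div_iff hv', h1]
  linear_combination h2

private theorem solve3 {u2 u3 v2 v3 : ℂ} (hv' : v2 - v3 ≠ 0) :
    u3 = (u2 - (u2 - u3) / (v2 - v3) * v2) + (u2 - u3) / (v2 - v3) * v3 := by
  have h : (u2 - u3) / (v2 - v3) * (v2 - v3) = u2 - u3 := div_mul_cancel₀ _ hv'
  linear_combination h

theorem pMB1 : Pool.Agent.Helper61.QE.StMB1 := by
  intro S φ hφ hcr y hy
  by_cases hex : ∃ x2 ∈ S, ∃ x3 ∈ S, x2 ≠ y ∧ x3 ≠ y ∧ x2 ≠ x3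
  · obtain ⟨x2, h2, x3, h3, h2y, h3y, h23⟩ := hex
    have f : ∀ {a b : ℂ}, a ∈ S → b ∈ S → a ≠ b → φ a ≠ φ b := fun ha hb hab h => hab (hφ ha hb h)
    refine ⟨(x2 - y)⁻¹ - ((x2 - y)⁻¹ - (x3 - y)⁻¹) / ((φ x2 - φ y)⁻¹ - (φ x3 - φ y)⁻¹) *
      (φ x2 - φ y)⁻¹, ((x2 - y)⁻¹ - (x3 - y)⁻¹) / ((φ x2 - φ y)⁻¹ - (φ x3 - φ y)⁻¹), ?_, ?_⟩
    · exact div_ne_zero (inv_ne h23) (inv_ne (f h2 h3 h23))
    · intro x hx hxy
      by_cases e2 : x = x2
      · subst e2
        ring
      by_cases e3 : x = x3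
      · subst e3
        exact solve3 (inv_ne (y := φ y) (f h2 hx h23))
      have s : ∀ {a b : ℂ}, a ≠ b → a - b ≠ 0 := fun h => sub_ne_zero.mpr h
      refine solve (inv_ne e2) (inv_ne (f hx h2 e2)) (inv_ne (f h2 h3 h23)) ?_
      refine XY ?_ ?_
      · have h := hcr ![y, x2, x3, x] (by
          intro i
          fin_cases i
          · exact hy
          · exact h2
          · exact h3
          · exact hx) (by
          intro i j hij
          fin_cases i <;> fin_cases j <;> first | exact absurd rfl hij | skip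
          · exact h2y.symm
          · exact h3y.symm
          · exact Ne.symm hxy
          · exact h2y
          · exact h23
          · exact Ne.symm e2
          · exact h3y
          · exact h23.symm
          · exact Ne.symm e3
          · exact hxy
          · exact e2
          · exact e3)
        have h' : ((y - x2) * (x3 - x) / ((y - x3) * (x2 - x))) ^ 2 =
          ((φ y - φ x2) * (φ x3 - φ x) / ((φ y - φ x3) * (φ x2 - φ x))) ^ 2 := h
        rw [crU y x2 x3 x (s h2y) (s h3y) (s hxy) (Ne.symm e2),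
          crU (φ y) (φ x2) (φ x3) (φ x) (s (f h2 hy h2y)) (s (f h3 hy h3y)) (s (f hx hy hxy))
            (f h2 hx (Ne.symm e2))] at h'
        exact h'
      · have h := hcr ![y, x, x3, x2] (by
          intro i
          fin_cases i
          · exact hy
          · exact hx
          · exact h3
          · exact h2) (by
          intro i j hij
          fin_cases i <;> fin_cases j <;> first | exact absurd rfl hij | skip
          · exact Ne.symm hxy
          · exact h3y.symm
          · exact h2y.symm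
          · exact hxy
          · exact e3
          · exact e2
          · exact h3y
          · exact Ne.symm e3
          · exact h23.symm
          · exact h2y
          · exact Ne.symm e2
          · exact h23)
        have h' : ((y - x) * (x3 - x2) / ((y - x3) * (x - x2))) ^ 2 =
          ((φ y - φ x) * (φ x3 - φ x2) / ((φ y - φ x3) * (φ x - φ x2))) ^ 2 := h
        rw [crU y x x3 x2 (s hxy) (s h3y) (s h2y) e2,
          crU (φ y) (φ x) (φ x3) (φ x2) (s (f hx hy hxy)) (s (f h3 hy h3y)) (s (f h2 hy h2y))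
            (f hx h2 e2)] at h'
        rw [oneSub (inv_ne e2) (inv_ne (Ne.symm e2)), oneSub (inv_ne (f hx h2 e2))
          (inv_ne (f h2 hx (Ne.symm e2)))] at h'
        exact h'
  · push Not at hex
    by_cases hx : ∃ x ∈ S, x ≠ y
    · obtain ⟨x, hxS, hxy⟩ := hx
      refine ⟨(x - y)⁻¹ - (φ x - φ y)⁻¹, 1, one_ne_zero, ?_⟩
      intro x' hx' hxy'
      have : x = x' := hex x hxS x' hx' hxy hxy'
      subst this
      ring
    · push Not at hx
      exact ⟨0, 1, one_ne_zero, fun x hxS hxy => absurd (hx x hxS) hxy⟩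

end Pool.Agent.Helper3.QE
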